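import Pool.Agent.H295R3.D6.Stmts

/-! Auxiliary lemmas for the tasks K2A, K2B of project H295-D6. -/

set_option autoImplicit false

open Finset Filter

namespace Pool.Agent.H170.D6

open Pool.Agent.H295R3.D6

lemma ev_rpow (c A : ℝ) (hc : 0 < c) : ∀ᶠ N : ℕ in atTop, A ≤ (N : ℝ) ^ c :=
  ((tendsto_rpow_atTop hc).comp tendsto_natCast_atTop_atTop).eventually_ge_atTop A

lemma ev_log (A : ℝ) : ∀ᶠ N : ℕ in atTop, A ≤ Real.log (N : ℝ) :=
  (Real.tendsto_log_atTop.comp tendsto_natCast_atTop_atTop).eventually_ge_atTop A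

lemma ev_logrpow (c A : ℝ) (hc : 0 < c) (hA : 0 < A) :
    ∀ᶠ N : ℕ in atTop, A * Real.log (N : ℝ) ≤ (N : ℝ) ^ c := by
  have h := (isLittleO_log_rpow_atTop hc).bound (inv_pos.mpr hA)
  have h2 := tendsto_natCast_atTop_atTop (R := ℝ) |>.eventually h
  filter_upwards [h2, eventually_ge_atTop 1] with N hN h1
  have h1' : (1 : ℝ) ≤ N := by exact_mod_cast h1
  have hl : 0 ≤ Real.log (N : ℝ) := Real.log_nonneg h1'
  have hr : 0 ≤ (N : ℝ) ^ c := by positivity
  rw [Real.norm_of_nonneg hl, Real.norm_of_nonneg hr] at hN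
  calc A * Real.log (N : ℝ) ≤ A * (A⁻¹ * (N : ℝ) ^ c) := by gcongr
    _ = (N : ℝ) ^ c := by field_simp

/-- number of multiples of `q` in `(a, b]` -/
lemma card_mult (a b q : ℕ) (hq : 0 < q) :
    ((Ioc a b).filter (fun n => q ∣ n)).card ≤ (b - a) / q + 1 := by
  have h1 : (Ioc a b).filter (fun n => q ∣ n) ⊆ (Ioc (a / q) (b / q)).image (fun t => q * t) := by
    intro n hn
    rw [mem_filter, mem_Ioc] at hn
    obtain ⟨⟨h1, h2⟩, t, rfl⟩ := hn
    rw [mem_image]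
    refine ⟨t, ?_, rfl⟩
    rw [mem_Ioc]
    refine ⟨?_, ?_⟩
    · rw [Nat.div_lt_iff_lt_mul hq]; linarith [mul_comm q t]
    · rw [Nat.le_div_iff_mul_le hq]; linarith [mul_comm q t]
  have h2 := (card_le_card h1).trans card_image_le
  rw [Nat.card_Ioc] at h2
  by_cases hab : a ≤ b
  · obtain ⟨c, rfl⟩ := Nat.exists_eq_add_of_le hab
    have h3 := Nat.add_div (a := a) (b := c) hq
    have h4 : (a + c) / q ≤ a / q + c / q + 1 := by
      rw [h3]
      generalize a / q = x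
      generalize c / q = z
      split_ifs <;> omega
    have h5 : a + c - a = c := by omega
    rw [h5]
    generalize (a + c) / q = x at *
    generalize a / q = z at *
    generalize c / q = t at *
    omega
  · have h3 : b / q ≤ a / q := Nat.div_le_div_right (by omega)
    generalize b / q = x at *
    generalize a / q = z at *
    generalize (b - a) / q = t at *
    omega

/-- swapping the sums -/
lemma swap (a b : ℕ) (U : Finset ℕ) (hU : ∀ q ∈ U, 1 ≤ q) :
    ∑ n ∈ Ioc a b, ∑ q ∈ U.filter (fun q => q ∣ n), Real.log (q : ℝ) ≤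
      ∑ q ∈ U, Real.log (q : ℝ) * (((b - a) / q + 1 : ℕ) : ℝ) := by
  have h1 : ∑ n ∈ Ioc a b, ∑ q ∈ U.filter (fun q => q ∣ n), Real.log (q : ℝ) =
      ∑ q ∈ U, ∑ n ∈ (Ioc a b).filter (fun n => q ∣ n), Real.log (q : ℝ) := by
    simp_rw [sum_filter]
    exact sum_comm
  rw [h1]
  refine sum_le_sum fun q hq => ?_
  rw [sum_const, nsmul_eq_mul, mul_comm]
  have h2 := card_mult a b q (hU q hq)
  have h3 : 0 ≤ Real.log (q : ℝ) := Real.log_nonneg (by exact_mod_cast hU q hq)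
  gcongr

/-- primes larger than the length of the interval: each divides at most one element -/
lemma sum_big (a b : ℕ) (S : Finset ℕ) (hS : ∀ q ∈ S, b - a < q) :
    ∑ q ∈ S, Real.log (q : ℝ) * (((b - a) / q + 1 : ℕ) : ℝ) = ∑ q ∈ S, Real.log (q : ℝ) := by
  refine sum_congr rfl fun q hq => ?_
  rw [Nat.div_eq_of_lt (hS q hq)]
  simp

/-- distinct primes dividing `M` -/
lemma sum_log_dvd (S : Finset ℕ) (M : ℕ) (hM : M ≠ 0) (hS : ∀ q ∈ S, q.Prime ∧ q ∣ M) :
    ∑ q ∈ S, Real.log (q : ℝ) ≤ Real.log (M : ℝ) := by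
  have h1 : ∏ q ∈ S, q ∣ M :=
    Finset.prod_primes_dvd M (fun q hq => (hS q hq).1.prime) (fun q hq => (hS q hq).2)
  have h2 : ∏ q ∈ S, q ≤ M := Nat.le_of_dvd (Nat.pos_of_ne_zero hM) h1
  have h3 : ∑ q ∈ S, Real.log (q : ℝ) = Real.log ((∏ q ∈ S, q : ℕ) : ℝ) := by
    rw [Nat.cast_prod, Real.log_prod]
    intro q hq
    exact_mod_cast (hS q hq).1.ne_zero
  rw [h3]
  apply Real.log_le_log
  · have : 0 < ∏ q ∈ S, q := Finset.prod_pos fun q hq => (hS q hq).1.pos
    exact_mod_cast this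
  · exact_mod_cast h2

lemma blk_ne_zero (a b : ℕ) : blk a b ≠ 0 := by
  unfold blk
  rw [Finset.prod_ne_zero_iff]
  intro n hn
  rw [mem_Ioc] at hn
  omega

lemma log_blk (a b N : ℕ) (h : b ≤ N) :
    Real.log ((blk a b : ℕ) : ℝ) ≤ ((b - a : ℕ) : ℝ) * Real.log (N : ℝ) := by
  unfold blk
  rw [Nat.cast_prod, Real.log_prod]
  · calc ∑ n ∈ Ioc a b, Real.log (n : ℝ) ≤ ∑ _n ∈ Ioc a b, Real.log (N : ℝ) := by
          refine sum_le_sum fun n hn => ?_
          rw [mem_Ioc] at hn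
          apply Real.log_le_log
          · have : 0 < n := by omega
            exact_mod_cast this
          · have : n ≤ N := by omega
            exact_mod_cast this
      _ = _ := by rw [sum_const, nsmul_eq_mul, Nat.card_Ioc]
  · intro n hn
    rw [mem_Ioc] at hn
    have : n ≠ 0 := by omega
    exact_mod_cast this

/-- elements of block 2 are at least `N ^ (1 - η) / 4` -/
lemma low (δ₂ η : ℝ) (_hδ : 0 < δ₂) (hη : 0 < η) (hηδ : η ≤ δ₂ / 100) :
    ∀ᶠ N : ℕ in atTop, ∀ y m k p j b₂ b₃ b₄ B : ℕ, Ctx δ₂ η y N m k p j b₂ b₃ b₄ B →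
      ∀ n : ℕ, b₄ < n → (1 - η) * Real.log N - Real.log 4 ≤ Real.log n := by
  filter_upwards [ev_rpow (δ₂ - η) 4 (by linarith), eventually_ge_atTop 1] with N hN1 hN0
  intro y m k p j b₂ b₃ b₄ B hC n hn
  have hNpos : (0 : ℝ) < N := by exact_mod_cast hN0
  have hp : 0 < p := hC.pp.pos
  have e1 : (N : ℝ) < 2 * (k * p) := by
    have := hC.hNm
    rw [hC.hm] at this
    exact_mod_cast this
  have e2 : (k : ℝ) * p ≤ (N : ℝ) ^ η * p := by
    have := hC.kN
    gcongr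
  have e3 : (N : ℝ) ^ (1 - η) * (N : ℝ) ^ η = N := by
    rw [← Real.rpow_add hNpos]; simp
  have hNη : 0 < (N : ℝ) ^ η := by positivity
  have e4 : (N : ℝ) ^ (1 - η) < 2 * p := by
    have : (N : ℝ) ^ (1 - η) * (N : ℝ) ^ η < (2 * p) * (N : ℝ) ^ η := by
      rw [e3]; nlinarith
    exact lt_of_mul_lt_mul_right this hNη.le
  have e5 : (p : ℝ) ≤ j * p := by
    have : p ≤ j * p := Nat.le_mul_of_pos_left p (by have := hC.j1; omega)
    exact_mod_cast this
  have e6 : (j : ℝ) * p ≤ n + ((b₃ - b₄ : ℕ) : ℝ) := by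
    have h2 := hC.hj2
    have : j * p ≤ n + (b₃ - b₄) := by omega
    exact_mod_cast this
  have e7 : (N : ℝ) ^ (1 - δ₂) * 4 ≤ (N : ℝ) ^ (1 - η) := by
    have : (N : ℝ) ^ (1 - η) = (N : ℝ) ^ (1 - δ₂) * (N : ℝ) ^ (δ₂ - η) := by
      rw [← Real.rpow_add hNpos]; ring_nf
    rw [this]
    gcongr
  have e8 := hC.l2
  have e9 : (N : ℝ) ^ (1 - η) / 4 ≤ n := by linarith
  have hpos : 0 < (N : ℝ) ^ (1 - η) := by positivity
  have e10 := Real.log_le_log (by positivity) e9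
  rw [Real.log_div hpos.ne' (by norm_num), Real.log_rpow hNpos] at e10
  exact e10

end Pool.Agent.H170.D6
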