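import Pool.Agent.H170.D6.Base

/-! Task K2A of project H295-D6. -/

set_option autoImplicit false

open Finset Filter

namespace Pool.Agent.H170.D6

open Pool.Agent.H295R3.D6

/-- the logarithm of the squarefree part is at most the sum over the primes of odd exponent -/
lemma log_sqfree (n d s : ℕ) (hn : 0 < n) (h : d ^ 2 * s = n) (hs : Squarefree s) :
    Real.log (s : ℝ) ≤ ∑ q ∈ n.primeFactors.filter (fun q => Odd (n.factorization q)),
      Real.log (q : ℝ) := by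
  have hs0 : s ≠ 0 := hs.ne_zero
  have hd0 : d ≠ 0 := by
    rintro rfl
    simp at h
    omega
  have h1 : Real.log (s : ℝ) = ∑ q ∈ s.primeFactors, Real.log (q : ℝ) := by
    conv_lhs => rw [← Nat.prod_primeFactors_of_squarefree hs]
    rw [Nat.cast_prod, Real.log_prod]
    intro q hq
    exact_mod_cast (Nat.prime_of_mem_primeFactors hq).ne_zero
  rw [h1]
  refine sum_le_sum_of_subset_of_nonneg ?_ ?_
  · intro q hq
    have hqp := Nat.prime_of_mem_primeFactors hq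
    have hqs := Nat.dvd_of_mem_primeFactors hq
    rw [mem_filter, Nat.mem_primeFactors]
    refine ⟨⟨hqp, ?_, by omega⟩, ?_⟩
    · rw [← h]; exact Dvd.dvd.mul_left hqs _
    · rw [← h, Nat.factorization_mul (pow_ne_zero 2 hd0) hs0, Nat.factorization_pow]
      have e1 : s.factorization q = 1 := by
        have e2 := hs.natFactorization_le_one q
        have e3 := hqp.factorization_pos_of_dvd hs0 hqs
        omega
      simp only [Finsupp.add_apply, Finsupp.smul_apply, e1, smul_eq_mul]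
      exact ⟨d.factorization q, rfl⟩
  · intro q hq _
    rw [mem_filter] at hq
    exact Real.log_nonneg (by exact_mod_cast (Nat.prime_of_mem_primeFactors hq.1).one_lt.le)

lemma theta_le (B : ℕ) : ∑ q ∈ (Icc 1 B).filter Nat.Prime, Real.log (q : ℝ) ≤ B * Real.log 4 := by
  have h1 : ∑ q ∈ (Icc 1 B).filter Nat.Prime, Real.log (q : ℝ) ≤ Real.log ((primorial B : ℕ) : ℝ) := by
    refine sum_log_dvd _ _ ?_ ?_
    · exact (primorial_pos B).ne'
    · intro q hq
      rw [mem_filter, mem_Icc] at hq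
      refine ⟨hq.2, ?_⟩
      unfold primorial
      refine Finset.dvd_prod_of_mem (fun q => q) ?_
      rw [mem_filter, mem_range]
      exact ⟨by omega, hq.2⟩
  have h2 : ((primorial B : ℕ) : ℝ) ≤ (4 : ℝ) ^ B := by exact_mod_cast primorial_le_four_pow B
  calc _ ≤ _ := h1
    _ ≤ Real.log ((4 : ℝ) ^ B) := by
      apply Real.log_le_log _ h2
      exact_mod_cast primorial_pos B
    _ = _ := by rw [Real.log_pow]

theorem taskK2A : TaskK2A := by
  intro hC2 ⟨C, hMert⟩ δ₂ κ η hδ0 hδ1 hκ0 hκ1 hη0 hη1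
  filter_upwards [low δ₂ η hδ0 hη0 hη1, eventually_ge_atTop 2,
    ev_log ((Real.log 4 + 2 * C) / (1 / 5)), ev_log 1] with N hlow hN2 hl1 hl0
  intro y m k p j b₂ b₃ b₄ B hC hL1 hL2 hE4
  have hNpos : (0 : ℝ) < N := by exact_mod_cast (by omega : 0 < N)
  have hN1 : (1 : ℝ) ≤ N := by exact_mod_cast (by omega : 1 ≤ N)
  have hlog4 : 0 < Real.log 4 := Real.log_pos (by norm_num)
  have hlogN : 0 < Real.log (N : ℝ) := by linarith
  obtain ⟨hBb4, hb43, hb32, hb2m, -⟩ := hC.rel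
  have hp : 0 < p := hC.pp.pos
  have hj := hC.j1
  have hj1 := hC.hj1
  have hj2 := hC.hj2
  have hmN := hC.hmN
  set L₁ := m - b₂ with hL₁
  set L₂ := b₃ - b₄ with hL₂
  have hL2pos : 1 ≤ L₂ := by omega
  have hL2R : (1 : ℝ) ≤ (L₂ : ℝ) := by exact_mod_cast hL2pos
  have hjpN : j * p ≤ N := by omega
  have hjp1 : 1 ≤ j * p := Nat.mul_pos (by omega) hp
  have hL12 : L₁ ≤ L₂ := by
    have : (L₁ : ℝ) ≤ L₂ := by nlinarith
    exact_mod_cast this
  have hmax : max L₁ L₂ = L₂ := max_eq_right hL12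
  -- the sets of primes
  set U₁ : Finset ℕ := (Icc 1 L₂).filter Nat.Prime with hU₁
  set U₂ : Finset ℕ := (blk b₂ m).primeFactors.filter (fun q => b₃ - b₄ < q) with hU₂
  set U₃ : Finset ℕ := ((Icc 1 B).filter Nat.Prime).filter (fun q => b₃ - b₄ < q) with hU₃
  have m1 : ∀ q ∈ U₁, q.Prime ∧ q ≤ L₂ := by
    intro q hq
    rw [hU₁, mem_filter, mem_Icc] at hq
    exact ⟨hq.2, hq.1.2⟩
  have m2 : ∀ q ∈ U₂, q.Prime ∧ q ∣ blk b₂ m ∧ b₃ - b₄ < q := by
    intro q hq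
    rw [hU₂, mem_filter, Nat.mem_primeFactors] at hq
    exact ⟨hq.1.1, hq.1.2.1, hq.2⟩
  have m3 : ∀ q ∈ U₃, q.Prime ∧ q ≤ B ∧ b₃ - b₄ < q := by
    intro q hq
    rw [hU₃, mem_filter, mem_filter, mem_Icc] at hq
    exact ⟨hq.1.2, hq.1.1.2, hq.2⟩
  have mU : ∀ q ∈ U₁ ∪ U₂ ∪ U₃, q.Prime := by
    intro q hq
    rw [mem_union, mem_union] at hq
    rcases hq with (hq | hq) | hq
    · exact (m1 q hq).1
    · exact (m2 q hq).1
    · exact (m3 q hq).1
  -- each element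
  have hel : ∀ n ∈ Ioc b₄ b₃, (1 - 13 * η) * Real.log N - Real.log 4 ≤
      ∑ q ∈ (U₁ ∪ U₂ ∪ U₃).filter (fun q => q ∣ n), Real.log (q : ℝ) := by
    intro n hn
    have hn' := hn
    rw [mem_Ioc] at hn'
    have hn0 : 0 < n := by omega
    obtain ⟨s, d, hds, hs⟩ := Nat.sq_mul_squarefree n
    have hs0 : 0 < s := Nat.pos_of_ne_zero hs.ne_zero
    have hd0 : 0 < d := by
      rcases Nat.eq_zero_or_pos d with rfl | h
      · simp at hds; omega
      · exact h
    have e1 := log_sqfree n d s hn0 hds hs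
    -- d is small
    have hd : (d : ℝ) < (N : ℝ) ^ (6 * η) := by
      by_contra hcon
      push Not at hcon
      apply hE4
      refine ⟨hjp1, hjpN, n, d, by omega, ?_, ?_, ⟨s, hds.symm⟩, hcon⟩
      · have h1 : j * p < n + L₂ := by omega
        have h2 : ((j * p : ℕ) : ℝ) < n + L₂ := by exact_mod_cast h1
        linarith
      · have h1 : n < j * p + L₂ := by omega
        have h2 : (n : ℝ) < ((j * p : ℕ) : ℝ) + L₂ := by exact_mod_cast h1
        linarith
    have hlogn : Real.log (n : ℝ) = 2 * Real.log d + Real.log s := by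
      have : (n : ℝ) = (d : ℝ) ^ 2 * s := by exact_mod_cast hds.symm
      rw [this, Real.log_mul (by positivity) (by positivity), Real.log_pow]
      norm_num
    have hlogd : Real.log (d : ℝ) ≤ 6 * η * Real.log N := by
      have := Real.log_le_log (by exact_mod_cast hd0) hd.le
      rwa [Real.log_rpow hNpos] at this
    have e2 := hlow y m k p j b₂ b₃ b₄ B hC n hn'.1
    have e3 : ∑ q ∈ n.primeFactors.filter (fun q => Odd (n.factorization q)), Real.log (q : ℝ) ≤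
        ∑ q ∈ (U₁ ∪ U₂ ∪ U₃).filter (fun q => q ∣ n), Real.log (q : ℝ) := by
      refine sum_le_sum_of_subset_of_nonneg ?_ ?_
      · intro q hq
        rw [mem_filter, Nat.mem_primeFactors] at hq
        obtain ⟨⟨hqp, hqn, -⟩, hqo⟩ := hq
        rw [mem_filter, mem_union, mem_union]
        refine ⟨?_, hqn⟩
        by_cases c1 : q ≤ L₂
        · left; left
          rw [hU₁, mem_filter, mem_Icc]
          exact ⟨⟨hqp.one_lt.le, c1⟩, hqp⟩
        · push Not at c1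
          by_cases c2 : q ≤ B
          · right
            rw [hU₃, mem_filter, mem_filter, mem_Icc]
            exact ⟨⟨⟨hqp.one_lt.le, c2⟩, hqp⟩, c1⟩
          · push Not at c2
            left; right
            rw [hU₂, mem_filter, Nat.mem_primeFactors]
            refine ⟨⟨hqp, ?_, blk_ne_zero _ _⟩, c1⟩
            refine hC2 m b₂ b₃ b₄ B hC.rel n hn q hqp c2 ?_ hqo
            rw [← hL₁, ← hL₂, hmax]; exact c1
      · intro q hq _
        rw [mem_filter] at hq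
        exact Real.log_nonneg (by exact_mod_cast (mU q hq.1).one_lt.le)
    linarith
  -- total
  have t1 : (L₂ : ℝ) * ((1 - 13 * η) * Real.log N - Real.log 4) ≤
      ∑ n ∈ Ioc b₄ b₃, ∑ q ∈ (U₁ ∪ U₂ ∪ U₃).filter (fun q => q ∣ n), Real.log (q : ℝ) := by
    have := sum_le_sum hel
    rwa [sum_const, nsmul_eq_mul, Nat.card_Ioc] at this
  have t2 := swap b₄ b₃ (U₁ ∪ U₂ ∪ U₃) (fun q hq => (mU q hq).one_lt.le)
  have hf0 : ∀ q ∈ U₁ ∪ U₂ ∪ U₃, 0 ≤ Real.log (q : ℝ) * (((b₃ - b₄) / q + 1 : ℕ) : ℝ) := by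
    intro q hq
    have := Real.log_nonneg (by exact_mod_cast (mU q hq).one_lt.le : (1 : ℝ) ≤ q)
    positivity
  have t3 : ∑ q ∈ U₁ ∪ U₂ ∪ U₃, Real.log (q : ℝ) * (((b₃ - b₄) / q + 1 : ℕ) : ℝ) ≤
      ∑ q ∈ U₁, Real.log (q : ℝ) * (((b₃ - b₄) / q + 1 : ℕ) : ℝ) +
      ∑ q ∈ U₂, Real.log (q : ℝ) * (((b₃ - b₄) / q + 1 : ℕ) : ℝ) +
      ∑ q ∈ U₃, Real.log (q : ℝ) * (((b₃ - b₄) / q + 1 : ℕ) : ℝ) := by
    have a1 := Finset.sum_union_inter (s₁ := U₁ ∪ U₂) (s₂ := U₃)
      (f := fun q : ℕ => Real.log (q : ℝ) * (((b₃ - b₄) / q + 1 : ℕ) : ℝ))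
    have a2 := Finset.sum_union_inter (s₁ := U₁) (s₂ := U₂)
      (f := fun q : ℕ => Real.log (q : ℝ) * (((b₃ - b₄) / q + 1 : ℕ) : ℝ))
    have a3 : 0 ≤ ∑ q ∈ (U₁ ∪ U₂) ∩ U₃, Real.log (q : ℝ) * (((b₃ - b₄) / q + 1 : ℕ) : ℝ) :=
      sum_nonneg fun q hq => hf0 q (by
        rw [mem_inter] at hq
        exact mem_union_left _ hq.1)
    have a4 : 0 ≤ ∑ q ∈ U₁ ∩ U₂, Real.log (q : ℝ) * (((b₃ - b₄) / q + 1 : ℕ) : ℝ) :=
      sum_nonneg fun q hq => hf0 q (by
        rw [mem_inter] at hq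
        exact mem_union_left _ (mem_union_left _ hq.1))
    linarith
  -- small primes
  have t4 : ∑ q ∈ U₁, Real.log (q : ℝ) * (((b₃ - b₄) / q + 1 : ℕ) : ℝ) ≤
      2 * L₂ * (3 * η * Real.log N + C) := by
    have b1 : ∑ q ∈ U₁, Real.log (q : ℝ) * (((b₃ - b₄) / q + 1 : ℕ) : ℝ) ≤
        ∑ q ∈ U₁, 2 * (L₂ : ℝ) * (Real.log q / q) := by
      refine sum_le_sum fun q hq => ?_
      obtain ⟨hqp, hqL⟩ := m1 q hq
      have hq0 : (0 : ℝ) < q := by exact_mod_cast hqp.pos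
      have c1 : 0 ≤ Real.log (q : ℝ) := Real.log_nonneg (by exact_mod_cast hqp.one_lt.le)
      have c2 : (((b₃ - b₄) / q + 1 : ℕ) : ℝ) ≤ 2 * L₂ / q := by
        have d1 : (((b₃ - b₄) / q : ℕ) : ℝ) ≤ (L₂ : ℝ) / q := Nat.cast_div_le
        have d2 : (1 : ℝ) ≤ (L₂ : ℝ) / q := by
          rw [le_div_iff₀ hq0]
          have : (q : ℝ) ≤ L₂ := by exact_mod_cast hqL
          linarith
        push_cast at d1 ⊢
        have : 2 * (L₂ : ℝ) / q = (L₂ : ℝ) / q + (L₂ : ℝ) / q := by ring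
        rw [this]
        gcongr
      calc Real.log (q : ℝ) * (((b₃ - b₄) / q + 1 : ℕ) : ℝ) ≤ Real.log (q : ℝ) * (2 * L₂ / q) := by
            gcongr
        _ = _ := by ring
    have b2 := hMert L₂ hL2pos
    have b3 : ∑ q ∈ U₁, Real.log (q : ℝ) / q ≤ Real.log L₂ + C := by
      have := (abs_le.mp b2).2
      linarith
    have b4 : Real.log (L₂ : ℝ) ≤ 3 * η * Real.log N := by
      have := Real.log_le_log (by linarith) hL2
      rwa [Real.log_rpow hNpos] at this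
    calc _ ≤ _ := b1
      _ = 2 * (L₂ : ℝ) * ∑ q ∈ U₁, Real.log (q : ℝ) / q := by rw [mul_sum]
      _ ≤ 2 * (L₂ : ℝ) * (3 * η * Real.log N + C) := by
        gcongr
        linarith
  -- primes dividing block 1
  have t5 : ∑ q ∈ U₂, Real.log (q : ℝ) * (((b₃ - b₄) / q + 1 : ℕ) : ℝ) ≤
      κ * L₂ * Real.log N := by
    rw [sum_big b₄ b₃ U₂ (fun q hq => (m2 q hq).2.2)]
    have s4 := sum_log_dvd U₂ (blk b₂ m) (blk_ne_zero _ _) (fun q hq => ⟨(m2 q hq).1, (m2 q hq).2.1⟩)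
    have s5 := log_blk b₂ m N hmN
    rw [← hL₁] at s5
    calc _ ≤ _ := s4
      _ ≤ _ := s5
      _ ≤ _ := by gcongr
  -- primes up to B
  have t6 : ∑ q ∈ U₃, Real.log (q : ℝ) * (((b₃ - b₄) / q + 1 : ℕ) : ℝ) ≤ B * Real.log 4 := by
    rw [sum_big b₄ b₃ U₃ (fun q hq => (m3 q hq).2.2)]
    refine le_trans ?_ (theta_le B)
    refine sum_le_sum_of_subset_of_nonneg (filter_subset _ _) ?_
    intro q hq _
    rw [mem_filter] at hq
    exact Real.log_nonneg (by exact_mod_cast hq.2.one_lt.le)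
  -- conclusion
  have hlog4' : Real.log 4 < 1.4 := by
    have : Real.log 4 = 2 * Real.log 2 := by
      rw [show (4 : ℝ) = 2 ^ 2 by norm_num, Real.log_pow]; norm_num
    rw [this]
    have := Real.log_two_lt_d9
    linarith
  have f1 : (L₂ : ℝ) * ((1 - 13 * η) * Real.log N - Real.log 4) ≤
      2 * L₂ * (3 * η * Real.log N + C) + κ * L₂ * Real.log N + B * Real.log 4 := by
    linarith
  have f2 : (L₂ : ℝ) * ((1 - 19 * η - κ) * Real.log N - (Real.log 4 + 2 * C)) ≤ B * Real.log 4 := by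
    nlinarith
  have f3 : Real.log 4 + 2 * C ≤ 1 / 5 * Real.log N := by
    have : (Real.log 4 + 2 * C) / (1 / 5) * (1 / 5) ≤ Real.log N * (1 / 5) := by gcongr
    rw [div_mul_cancel₀ _ (by norm_num)] at this
    linarith
  have f4 : (7 / 10 : ℝ) * Real.log N ≤ (1 - 19 * η - κ) * Real.log N - (Real.log 4 + 2 * C) := by
    have : (9 / 10 : ℝ) * Real.log N ≤ (1 - 19 * η - κ) * Real.log N := by
      gcongr
      linarith
    linarith
  have f5 : (L₂ : ℝ) * ((7 / 10 : ℝ) * Real.log N) ≤ B * 1.4 := by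
    calc (L₂ : ℝ) * ((7 / 10 : ℝ) * Real.log N) ≤
        (L₂ : ℝ) * ((1 - 19 * η - κ) * Real.log N - (Real.log 4 + 2 * C)) := by gcongr
      _ ≤ B * Real.log 4 := f2
      _ ≤ B * 1.4 := by gcongr
  linarith

end Pool.Agent.H170.D6
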