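import Pool.Agent.H170.D6.Base

/-! Task K2B of project H295-D6. -/

set_option autoImplicit false

open Finset Filter

namespace Pool.Agent.H170.D6

open Pool.Agent.H295R3.D6

theorem taskK2B : TaskK2B := by
  intro hC2 hCHEB δ₂ κ η hδ0 hδ1 hκ0 hκ1 hη0 hη1
  filter_upwards [low δ₂ η hδ0 hη0 hη1, hCHEB η hη0 (by linarith), eventually_ge_atTop 2,
    ev_rpow (δ₂ - 10 * η) 2 (by linarith), ev_logrpow (2 * η) 6 (by linarith) (by norm_num),
    ev_log (4 * Real.log 4 / δ₂)] with N hlow hcheb hN2 hr1 hr2 hl1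
  intro y m k p j b₂ b₃ b₄ B hC hL1 hL2
  have hNpos : (0 : ℝ) < N := by exact_mod_cast (by omega : 0 < N)
  have hN1 : (1 : ℝ) ≤ N := by exact_mod_cast (by omega : 1 ≤ N)
  have hlog4 : 0 < Real.log 4 := Real.log_pos (by norm_num)
  have hlogN : 0 < Real.log (N : ℝ) := lt_of_lt_of_le (by positivity) hl1
  obtain ⟨hBb4, hb43, hb32, hb2m, -⟩ := hC.rel
  have hp : 0 < p := hC.pp.pos
  have hj := hC.j1
  have hj1 := hC.hj1
  have hj2 := hC.hj2
  have hmN := hC.hmN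
  set L₁ := m - b₂ with hL₁
  set L₂ := b₃ - b₄ with hL₂
  have hL2pos : 1 ≤ L₂ := by omega
  have hL2R : (1 : ℝ) ≤ (L₂ : ℝ) := by exact_mod_cast hL2pos
  -- choice of the scale
  obtain ⟨i, hi1, hi2⟩ : ∃ i : ℕ, L₂ ≤ 2 ^ i ∧ 2 ^ i < 2 * L₂ := by
    refine ⟨Nat.clog 2 L₂, Nat.le_pow_clog (by norm_num) _, ?_⟩
    rcases Nat.eq_or_lt_of_le hL2pos with h | h
    · rw [← h]; simp
    · have h1 : 0 < Nat.clog 2 L₂ := Nat.clog_pos (by norm_num) (by omega)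
      have h2 := Nat.pow_pred_clog_lt_self (b := 2) (by norm_num) (x := L₂) (by omega)
      have h3 : 2 ^ Nat.clog 2 L₂ = 2 * 2 ^ (Nat.clog 2 L₂).pred := by
        rw [← pow_succ']
        exact congrArg (fun t => 2 ^ t) (Nat.succ_pred_eq_of_pos h1).symm
      omega
  have hi1R : (L₂ : ℝ) ≤ (2 : ℝ) ^ i := by exact_mod_cast hi1
  have hi2R : (2 : ℝ) ^ i ≤ 2 * (L₂ : ℝ) := by exact_mod_cast hi2.le
  have hup : (2 : ℝ) ^ i ≤ (N : ℝ) ^ (1 - 10 * η) := by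
    have e1 : (N : ℝ) ^ (1 - 10 * η) = (N : ℝ) ^ (1 - δ₂) * (N : ℝ) ^ (δ₂ - 10 * η) := by
      rw [← Real.rpow_add hNpos]; ring_nf
    have e2 : (L₂ : ℝ) ≤ (N : ℝ) ^ (1 - δ₂) := hC.l2
    calc (2 : ℝ) ^ i ≤ 2 * (L₂ : ℝ) := hi2R
      _ ≤ (N : ℝ) ^ (1 - δ₂) * 2 := by linarith
      _ ≤ (N : ℝ) ^ (1 - δ₂) * (N : ℝ) ^ (δ₂ - 10 * η) := by gcongr
      _ = _ := e1.symm
  have hlo : (N : ℝ) ^ (3 * η) ≤ (2 : ℝ) ^ i := by linarith
  have hjpN : j * p ≤ N := by omega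
  have hjp1 : 1 ≤ j * p := Nat.mul_pos (by omega) hp
  refine ⟨hjp1, hjpN, i, hlo, hup, ?_⟩
  intro hReg
  -- the number w
  have hwcast : (((2 ^ i : ℕ) : ℕ) : ℝ) = (2 : ℝ) ^ i := by push_cast; rfl
  have hwN : 2 ^ i ≤ N := by
    have h1 : (N : ℝ) ^ (1 - 10 * η) ≤ (N : ℝ) ^ (1 : ℝ) :=
      Real.rpow_le_rpow_of_exponent_le hN1 (by linarith)
    rw [Real.rpow_one] at h1
    have : ((2 ^ i : ℕ) : ℝ) ≤ N := by rw [hwcast]; linarith
    exact_mod_cast this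
  have hwη : (N : ℝ) ^ η ≤ ((2 ^ i : ℕ) : ℝ) := by
    have h1 : (N : ℝ) ^ η ≤ (N : ℝ) ^ (3 * η) :=
      Real.rpow_le_rpow_of_exponent_le hN1 (by linarith)
    rw [hwcast]; linarith
  -- max
  have hL12 : L₁ ≤ L₂ := by
    have : (L₁ : ℝ) ≤ L₂ := by nlinarith
    exact_mod_cast this
  have hmax : max L₁ L₂ = L₂ := max_eq_right hL12
  have hB := hC.hB
  rw [← hL₁, ← hL₂, hmax] at hB
  -- the big primes
  set U : Finset ℕ := (blk b₂ m).primeFactors.filter (fun q => b₃ - b₄ < q) with hU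
  have hUmem : ∀ q ∈ U, q.Prime ∧ q ∣ blk b₂ m ∧ b₃ - b₄ < q := by
    intro q hq
    rw [hU, mem_filter, Nat.mem_primeFactors] at hq
    exact ⟨hq.1.1, hq.1.2.1, hq.2⟩
  have hRsum : ∑ n ∈ Ioc b₄ b₃, ∑ q ∈ n.primeFactors.filter (fun q : ℕ =>
      (((2 ^ i : ℕ) : ℕ) : ℝ) * (N : ℝ) ^ (2 * η) < (q : ℝ) ∧ Odd (n.factorization q)),
      Real.log (q : ℝ) ≤ (L₁ : ℝ) * Real.log N := by
    have s1 : ∑ n ∈ Ioc b₄ b₃, ∑ q ∈ n.primeFactors.filter (fun q : ℕ =>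
      (((2 ^ i : ℕ) : ℕ) : ℝ) * (N : ℝ) ^ (2 * η) < (q : ℝ) ∧ Odd (n.factorization q)),
      Real.log (q : ℝ) ≤ ∑ n ∈ Ioc b₄ b₃, ∑ q ∈ U.filter (fun q => q ∣ n), Real.log (q : ℝ) := by
      refine sum_le_sum fun n hn => ?_
      refine sum_le_sum_of_subset_of_nonneg ?_ ?_
      · intro q hq
        rw [mem_filter, Nat.mem_primeFactors] at hq
        obtain ⟨⟨hqp, hqn, hn0⟩, hqw, hqo⟩ := hq
        have hNη : 0 < (N : ℝ) ^ (2 * η) := by positivity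
        have hw1 : (L₂ : ℝ) * (N : ℝ) ^ (2 * η) < q := by
          refine lt_of_le_of_lt ?_ hqw
          rw [hwcast]; gcongr
        have hBq : B < q := by
          have : (B : ℝ) < q := by
            calc (B : ℝ) ≤ 6 * (L₂ : ℝ) * Real.log N := hB
              _ = (L₂ : ℝ) * (6 * Real.log N) := by ring
              _ ≤ (L₂ : ℝ) * (N : ℝ) ^ (2 * η) := by gcongr
              _ < q := hw1
          exact_mod_cast this
        have hLq : L₂ < q := by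
          have h1 : (1 : ℝ) ≤ (N : ℝ) ^ (2 * η) := Real.one_le_rpow hN1 (by linarith)
          have : (L₂ : ℝ) < q := by nlinarith
          exact_mod_cast this
        rw [mem_filter, hU, mem_filter, Nat.mem_primeFactors]
        refine ⟨⟨⟨hqp, ?_, blk_ne_zero _ _⟩, hLq⟩, hqn⟩
        refine hC2 m b₂ b₃ b₄ B hC.rel n hn q hqp hBq ?_ hqo
        rw [← hL₁, ← hL₂, hmax]; exact hLq
      · intro q hq _
        rw [mem_filter] at hq
        exact Real.log_nonneg (by exact_mod_cast (hUmem q hq.1).1.one_lt.le)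
    have s2 := swap b₄ b₃ U (fun q hq => (hUmem q hq).1.one_lt.le)
    have s3 := sum_big b₄ b₃ U (fun q hq => (hUmem q hq).2.2)
    have s4 := sum_log_dvd U (blk b₂ m) (blk_ne_zero _ _) (fun q hq => ⟨(hUmem q hq).1, (hUmem q hq).2.1⟩)
    have s5 := log_blk b₂ m N hmN
    calc _ ≤ _ := s1
      _ ≤ _ := s2
      _ = _ := s3
      _ ≤ _ := s4
      _ ≤ _ := s5
  have key := hcheb (2 ^ i) (j * p) b₄ b₃ hwη hwN (by omega) (by omega) (by omega) (by omega)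
    (by omega) (by omega) hReg (Ioc b₄ b₃) (Subset.refl _) ((L₁ : ℝ) * Real.log N) hRsum
  rw [← hL₂] at key
  -- lower bound
  have hlower : (L₂ : ℝ) * ((1 - η) * Real.log N - Real.log 4) ≤ ∑ n ∈ Ioc b₄ b₃, Real.log (n : ℝ) := by
    have : ∑ _n ∈ Ioc b₄ b₃, ((1 - η) * Real.log N - Real.log 4) ≤ ∑ n ∈ Ioc b₄ b₃, Real.log (n : ℝ) := by
      refine sum_le_sum fun n hn => ?_
      rw [mem_Ioc] at hn
      exact hlow y m k p j b₂ b₃ b₄ B hC n hn.1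
    rwa [sum_const, nsmul_eq_mul, Nat.card_Ioc] at this
  have hlogL : Real.log (L₂ : ℝ) ≤ (1 - δ₂) * Real.log N := by
    have h1 := Real.log_le_log (by linarith) hC.l2
    rwa [Real.log_rpow hNpos] at h1
  have hfin : (L₂ : ℝ) * ((1 - η) * Real.log N - Real.log 4) ≤
      (L₂ : ℝ) * ((1 - δ₂) * Real.log N + 16 * η * Real.log N + κ * Real.log N) := by
    calc _ ≤ _ := hlower
      _ ≤ _ := key
      _ ≤ (L₂ : ℝ) * ((1 - δ₂) * Real.log N) + 16 * η * (L₂ : ℝ) * Real.log N +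
          (κ * (L₂ : ℝ)) * Real.log N := by
        gcongr
      _ = _ := by ring
  have hfin2 := le_of_mul_le_mul_left hfin (by linarith : (0 : ℝ) < L₂)
  -- (δ₂ - 17 η - κ) log N ≤ log 4
  have h1 : (δ₂ / 2) * Real.log N ≤ (δ₂ - 17 * η - κ) * Real.log N := by
    gcongr
    linarith
  have h2 : 2 * Real.log 4 ≤ (δ₂ / 2) * Real.log N := by
    calc 2 * Real.log 4 = (δ₂ / 2) * (4 * Real.log 4 / δ₂) := by field_simp; ring
      _ ≤ _ := by gcongr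
  linarith

end Pool.Agent.H170.D6
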